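import Pool.Agent.H.MP_41ddaf_co.Data

set_option autoImplicit false

namespace Pool.Agent.H.MP_41ddaf_co

noncomputable def cl (t : ℝ) : ℝ := max (-10) (min t 10)

theorem cl_abs (t : ℝ) : |cl t| ≤ 10 := by
  unfold cl
  rw [abs_le]
  constructor
  · exact le_max_left _ _
  · exact max_le (by norm_num) (min_le_right _ _)

theorem cl_lip (s t : ℝ) : |cl s - cl t| ≤ |s - t| := by
  unfold cl
  refine (abs_max_sub_max_le_max _ _ _ _).trans (max_le (by simp) ?_)
  refine (abs_min_sub_min_le_max _ _ _ _).trans (max_le le_rfl (by simp))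

theorem cl_id (t : ℝ) (h : |t| ≤ 10) : cl t = t := by
  unfold cl
  rw [abs_le] at h
  rw [min_eq_left h.2, max_eq_right h.1]

noncomputable def HH (y : Fin 21 → ℝ) (u : Fin 9) (k : Fin 3) : ℝ :=
  (∑ e, (Mz u k e : ℝ) * y e) / DD

theorem HH_le (y : Fin 21 → ℝ) (r : ℝ) (hy : ∀ e, |y e| ≤ r) (u : Fin 9) (k : Fin 3) :
    |HH y u k| ≤ r / 20000 := by
  have hD' : (0 : ℝ) < DD := by exact_mod_cast hD
  have hK' : 20000 * ∑ e : Fin 21, |(Mz u k e : ℝ)| ≤ DD := by exact_mod_cast hK u k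
  have hr : 0 ≤ r := (abs_nonneg _).trans (hy 0)
  unfold HH
  rw [abs_div, abs_of_pos hD', div_le_div_iff₀ hD' (by norm_num)]
  have : |∑ e, (Mz u k e : ℝ) * y e| ≤ (∑ e : Fin 21, |(Mz u k e : ℝ)|) * r := by
    rw [Finset.sum_mul]
    refine (Finset.abs_sum_le_sum_abs _ _).trans (Finset.sum_le_sum fun e _ => ?_)
    rw [abs_mul]
    exact mul_le_mul_of_nonneg_left (hy e) (abs_nonneg _)
  nlinarith

theorem HH_sub (y y' : Fin 21 → ℝ) (u : Fin 9) (k : Fin 3) :
    HH y u k - HH y' u k = HH (y - y') u k := by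
  unfold HH
  rw [← sub_div, ← Finset.sum_sub_distrib]
  congr 1
  exact Finset.sum_congr rfl fun e _ => by simp [mul_sub]

noncomputable def F0 (e : Fin 21) : ℝ :=
  ((∑ k : Fin 3, (X0 (eu e) k - X0 (ev e) k) ^ 2 - LL e : ℤ) : ℝ)

noncomputable def TT (y : Fin 21 → ℝ) (e : Fin 21) : ℝ :=
  -F0 e - ∑ k : Fin 3, (cl (HH y (eu e) k) - cl (HH y (ev e) k)) ^ 2

theorem TT_lip : LipschitzWith (1 / 2) TT := by
  refine LipschitzWith.of_dist_le_mul fun y y' => ?_
  have hd : 0 ≤ dist y y' := dist_nonneg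
  have hy : ∀ e, |(y - y') e| ≤ dist y y' := fun e => by
    have := dist_le_pi_dist y y' e
    rwa [Real.dist_eq] at this
  rw [dist_pi_le_iff (by positivity)]
  intro e
  rw [Real.dist_eq]
  have h1 : ∀ u k, |cl (HH y u k) - cl (HH y' u k)| ≤ dist y y' / 20000 := fun u k =>
    (cl_lip _ _).trans (by rw [HH_sub]; exact HH_le _ _ hy u k)
  have h2 : ∀ k : Fin 3, |(cl (HH y' (eu e) k) - cl (HH y' (ev e) k)) ^ 2 -
      (cl (HH y (eu e) k) - cl (HH y (ev e) k)) ^ 2| ≤ dist y y' / 250 := by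
    intro k
    have a1 := h1 (eu e) k
    have a2 := h1 (ev e) k
    have b1 := cl_abs (HH y (eu e) k)
    have b2 := cl_abs (HH y (ev e) k)
    have b3 := cl_abs (HH y' (eu e) k)
    have b4 := cl_abs (HH y' (ev e) k)
    generalize cl (HH y (eu e) k) = p at *
    generalize cl (HH y (ev e) k) = q at *
    generalize cl (HH y' (eu e) k) = p' at *
    generalize cl (HH y' (ev e) k) = q' at *
    have e1 : (p' - q') ^ 2 - (p - q) ^ 2 = ((p' - q') + (p - q)) * ((p' - q') - (p - q)) := by ring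
    rw [e1, abs_mul]
    have c1 : |(p' - q') + (p - q)| ≤ 40 := by
      rw [abs_le] at *
      constructor <;> linarith [b1.1, b1.2, b2.1, b2.2, b3.1, b3.2, b4.1, b4.2]
    have c2 : |(p' - q') - (p - q)| ≤ dist y y' / 10000 := by
      rw [abs_le] at *
      constructor <;> linarith [a1.1, a1.2, a2.1, a2.2]
    calc _ ≤ 40 * (dist y y' / 10000) := mul_le_mul c1 c2 (abs_nonneg _) (by norm_num)
      _ = _ := by ring
  have h3 : TT y e - TT y' e = ∑ k : Fin 3, ((cl (HH y' (eu e) k) - cl (HH y' (ev e) k)) ^ 2 -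
      (cl (HH y (eu e) k) - cl (HH y (ev e) k)) ^ 2) := by
    unfold TT
    rw [Finset.sum_sub_distrib]
    ring
  rw [h3]
  refine (Finset.abs_sum_le_sum_abs _ _).trans ?_
  rw [Fin.sum_univ_three]
  have := h2 0
  have := h2 1
  have := h2 2
  push_cast
  linarith

theorem TT_le (y : Fin 21 → ℝ) (e : Fin 21) : |TT y e| ≤ 200000 := by
  have h1 : |F0 e| ≤ 190000 := by
    unfold F0
    exact_mod_cast hF e
  have h2 : ∀ k : Fin 3, (cl (HH y (eu e) k) - cl (HH y (ev e) k)) ^ 2 ≤ 400 := by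
    intro k
    have b1 := abs_le.1 (cl_abs (HH y (eu e) k))
    have b2 := abs_le.1 (cl_abs (HH y (ev e) k))
    nlinarith
  unfold TT
  rw [Fin.sum_univ_three]
  have := h2 0
  have := h2 1
  have := h2 2
  rw [abs_le] at h1 ⊢
  constructor <;> nlinarith [sq_nonneg (cl (HH y (eu e) 0) - cl (HH y (ev e) 0)),
    sq_nonneg (cl (HH y (eu e) 1) - cl (HH y (ev e) 1)),
    sq_nonneg (cl (HH y (eu e) 2) - cl (HH y (ev e) 2))]

theorem JH (y : Fin 21 → ℝ) (e : Fin 21) :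
    ∑ k : Fin 3, 2 * ((X0 (eu e) k : ℝ) - X0 (ev e) k) * (HH y (eu e) k - HH y (ev e) k) = y e := by
  have hD' : (DD : ℝ) ≠ 0 := by exact_mod_cast hD.ne'
  have h1 : ∀ e' : Fin 21, ∑ k : Fin 3, 2 * ((X0 (eu e) k : ℝ) - X0 (ev e) k) *
      ((Mz (eu e) k e' : ℝ) - Mz (ev e) k e') = if e = e' then (DD : ℝ) else 0 := by
    intro e'
    have := hJ e e'
    split_ifs at this ⊢ <;> exact_mod_cast this
  have h2 : ∀ k : Fin 3, 2 * ((X0 (eu e) k : ℝ) - X0 (ev e) k) * (HH y (eu e) k - HH y (ev e) k) =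
      ∑ e', 2 * ((X0 (eu e) k : ℝ) - X0 (ev e) k) *
        ((Mz (eu e) k e' : ℝ) - Mz (ev e) k e') * (y e' / DD) := by
    intro k
    unfold HH
    rw [← sub_div, ← Finset.sum_sub_distrib, Finset.sum_div, Finset.mul_sum]
    exact Finset.sum_congr rfl fun e' _ => by ring
  simp only [h2]
  rw [Finset.sum_comm]
  simp only [← Finset.sum_mul, h1]
  simp only [ite_mul, zero_mul, Finset.sum_ite_eq, Finset.mem_univ, if_true]
  field_simp

theorem exists_P : ∃ P : Fin 9 → Fin 3 → ℝ, (∀ u k, |P u k - X0 u k| ≤ 10) ∧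
    ∀ e, ∑ k : Fin 3, (P (eu e) k - P (ev e) k) ^ 2 = LL e := by
  have hc : ContractingWith (1 / 2) TT := ⟨by norm_num, TT_lip⟩
  obtain ⟨y, hy⟩ : ∃ y, TT y = y := ⟨hc.fixedPoint, hc.fixedPoint_isFixedPt⟩
  have h1 : ∀ e, |y e| ≤ 200000 := fun e => by rw [← hy]; exact TT_le y e
  have h2 : ∀ u k, |HH y u k| ≤ 10 := fun u k => (HH_le y _ h1 u k).trans (by norm_num)
  refine ⟨fun u k => X0 u k + HH y u k, fun u k => by simpa using h2 u k, fun e => ?_⟩
  have h3 := congrFun hy e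
  have h4 := JH y e
  unfold TT F0 at h3
  simp only [cl_id _ (h2 _ _)] at h3
  push_cast at h3
  simp only [Fin.sum_univ_three] at h3 h4 ⊢
  linarith

end Pool.Agent.H.MP_41ddaf_co
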