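import Pool.Agent.H.MP_41ddaf_co.Exist

set_option autoImplicit false

namespace Pool.Agent.H.MP_41ddaf_co

abbrev E3 : Type := EuclideanSpace ℝ (Fin 3)

def d3 (u v w : E3) : ℝ :=
  u 0 * (v 1 * w 2 - v 2 * w 1) - u 1 * (v 0 * w 2 - v 2 * w 0) + u 2 * (v 0 * w 1 - v 1 * w 0)

def sq3 (u : E3) : ℝ := u 0 ^ 2 + u 1 ^ 2 + u 2 ^ 2

theorem norm_sq3 (u : E3) : ‖u‖ ^ 2 = sq3 u := by
  rw [EuclideanSpace.norm_sq_eq, Fin.sum_univ_three]
  simp [sq3]

theorem tri (x y z a b c : ℝ) (h1 : |x - a| ≤ 20) (h2 : |y - b| ≤ 20) (h3 : |z - c| ≤ 20)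
    (ha : |a| ≤ 200000) (hb : |b| ≤ 200000) (hc : |c| ≤ 200000) :
    |x * y * z - a * b * c| ≤ 2500000000000 := by
  have hy : |y| ≤ 200020 := by
    have := abs_add_le (y - b) b
    simp only [sub_add_cancel] at this
    linarith
  have hz : |z| ≤ 200020 := by
    have := abs_add_le (z - c) c
    simp only [sub_add_cancel] at this
    linarith
  have e : x * y * z - a * b * c = (x - a) * y * z + a * (y - b) * z + a * b * (z - c) := by ring
  have t1 : |(x - a) * y * z| ≤ 20 * 200020 * 200020 := by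
    rw [abs_mul, abs_mul]
    gcongr
  have t2 : |a * (y - b) * z| ≤ 200000 * 20 * 200020 := by
    rw [abs_mul, abs_mul]
    gcongr
  have t3 : |a * b * (z - c)| ≤ 200000 * 200000 * 20 := by
    rw [abs_mul, abs_mul]
    gcongr
  rw [e]
  have := abs_add_three ((x - a) * y * z) (a * (y - b) * z) (a * b * (z - c))
  linarith

theorem lrep (l : E3 →L[ℝ] ℝ) : ∃ a b c : ℝ, ∀ x : E3, l x = a * x 0 + b * x 1 + c * x 2 := by
  refine ⟨l (EuclideanSpace.single 0 1), l (EuclideanSpace.single 1 1),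
    l (EuclideanSpace.single 2 1), fun x => ?_⟩
  have : x = x 0 • EuclideanSpace.single (0 : Fin 3) (1 : ℝ) + x 1 • EuclideanSpace.single 1 1 +
      x 2 • EuclideanSpace.single 2 1 := by
    ext k
    fin_cases k <;> simp
  conv_lhs => rw [this]
  simp only [map_add, map_smul, smul_eq_mul]
  ring

theorem cramer (u v w x : E3) (h : d3 u v w ≠ 0) :
    x = (d3 x v w / d3 u v w) • u + (d3 u x w / d3 u v w) • v + (d3 u v x / d3 u v w) • w := by
  ext k
  simp only [PiLp.add_apply, PiLp.smul_apply, smul_eq_mul]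
  field_simp
  fin_cases k <;> simp [d3] <;> ring

theorem l_zero (l : E3 →L[ℝ] ℝ) (u v w w' : E3) (hu : l u = 0) (hv : l v = 0) (hw : l w ≤ 0)
    (hw' : l w' ≤ 0) (h1 : 0 < d3 u v w) (h2 : d3 u v w' < 0) (x : E3) : l x = 0 := by
  have e1 : l w' = (d3 u v w' / d3 u v w) * l w := by
    conv_lhs => rw [cramer u v w w' h1.ne']
    simp [hu, hv]
  have e2 : d3 u v w' / d3 u v w < 0 := div_neg_of_neg_of_pos h2 h1
  have e3 : l w = 0 := by nlinarith
  rw [cramer u v w x h1.ne']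
  simp [hu, hv, e3]

theorem exists_iso (a b c a' b' c' : E3) (h1 : sq3 (b - a) = sq3 (b' - a'))
    (h2 : sq3 (c - b) = sq3 (c' - b')) (h3 : sq3 (c - a) = sq3 (c' - a')) :
    ∃ φ : E3 ≃ᵢ E3, φ '' convexHull ℝ {a, b, c} = convexHull ℝ {a', b', c'} := by
  have nn : ∀ x y : E3, sq3 x = sq3 y → ‖x‖ = ‖y‖ := fun x y h => by
    rw [← norm_sq3, ← norm_sq3] at h
    exact (pow_left_inj₀ (norm_nonneg _) (norm_nonneg _) two_ne_zero).1 h
  have ii : inner ℝ (c - a) (b - a) = inner ℝ (c' - a') (b' - a') := by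
    have e1 := norm_sub_sq_real (c - a) (b - a)
    have e2 := norm_sub_sq_real (c' - a') (b' - a')
    rw [sub_sub_sub_cancel_right, norm_sq3, norm_sq3, norm_sq3] at e1 e2
    linarith
  let R1 : E3 ≃ₗᵢ[ℝ] E3 := Submodule.reflection (ℝ ∙ ((b - a) - (b' - a')))ᗮ
  have r1 : R1 (b - a) = b' - a' := Submodule.reflection_sub (nn _ _ h1)
  let R2 : E3 ≃ₗᵢ[ℝ] E3 := Submodule.reflection (ℝ ∙ (R1 (c - a) - (c' - a')))ᗮ
  have r2 : R2 (R1 (c - a)) = c' - a' :=
    Submodule.reflection_sub (by rw [R1.norm_map]; exact nn _ _ h3)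
  have r3 : R2 (b' - a') = b' - a' := by
    apply Submodule.reflection_mem_subspace_eq_self
    rw [Submodule.mem_orthogonal_singleton_iff_inner_right, inner_sub_left, ← ii, ← r1,
      R1.inner_map_map, sub_self]
  let ψ : E3 ≃ᵃⁱ[ℝ] E3 := (AffineIsometryEquiv.constVAdd ℝ E3 (-a)).trans
    ((R1.trans R2).toAffineIsometryEquiv.trans (AffineIsometryEquiv.constVAdd ℝ E3 a'))
  have hψ : ∀ x, ψ x = a' + R2 (R1 (x - a)) := fun x => by
    simp [ψ, neg_add_eq_sub]
  refine ⟨ψ.toIsometryEquiv, ?_⟩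
  have := AffineMap.image_convexHull ψ.toAffineEquiv.toAffineMap {a, b, c}
  change ψ '' _ = convexHull ℝ (ψ '' _) at this
  change ψ '' _ = _
  rw [this, Set.image_insert_eq, Set.image_insert_eq, Set.image_singleton, hψ, hψ, hψ, r1, r2, r3]
  simp

section
variable {ι : Type} (p : ι → E3) (l : E3 →L[ℝ] ℝ)

def TS : Set ι := {i | ∀ j, l (p j) ≤ l (p i)}

theorem zlem (i0 : ι) (h0 : i0 ∈ TS p l) (y : E3) (hy : y ∈ convexHull ℝ (Set.range p)) :
    l y ≤ l (p i0) ∧ (l y = l (p i0) → y ∈ convexHull ℝ (p '' TS p l)) := by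
  refine convexHull_min (t := {y | l y ≤ l (p i0) ∧
    (l y = l (p i0) → y ∈ convexHull ℝ (p '' TS p l))}) ?_ ?_ hy
  · rintro _ ⟨j, rfl⟩
    exact ⟨h0 j, fun h => subset_convexHull ℝ _ ⟨j, fun k => h ▸ h0 k, rfl⟩⟩
  · intro x hx z hz a b ha hb hab
    have e : l (a • x + b • z) = a * l x + b * l z := by simp
    have e0 : l (p i0) = a * l (p i0) + b * l (p i0) := by rw [← add_mul, hab, one_mul]
    have t1 : a * l x ≤ a * l (p i0) := mul_le_mul_of_nonneg_left hx.1 ha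
    have t2 : b * l z ≤ b * l (p i0) := mul_le_mul_of_nonneg_left hz.1 hb
    refine ⟨by rw [e]; linarith, fun h => ?_⟩
    rw [e] at h
    rcases ha.eq_or_lt with rfl | ha'
    · have hb1 : b = 1 := by linarith
      subst hb1
      simpa using hz.2 (by linarith)
    rcases hb.eq_or_lt with rfl | hb'
    · have ha1 : a = 1 := by linarith
      subst ha1
      simpa using hx.2 (by linarith)
    refine convex_convexHull ℝ _ (hx.2 ?_) (hz.2 ?_) ha hb hab
    · exact mul_left_cancel₀ ha'.ne' (by linarith)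
    · exact mul_left_cancel₀ hb'.ne' (by linarith)

theorem face_eq (i0 : ι) (h0 : i0 ∈ TS p l) :
    {x | x ∈ convexHull ℝ (Set.range p) ∧ ∀ y ∈ convexHull ℝ (Set.range p), l y ≤ l x} =
      convexHull ℝ (p '' TS p l) := by
  ext x
  constructor
  · rintro ⟨h1, h2⟩
    refine (zlem p l i0 h0 x h1).2 (le_antisymm (zlem p l i0 h0 x h1).1 ?_)
    exact h2 _ (subset_convexHull ℝ _ ⟨i0, rfl⟩)
  · intro h
    refine ⟨convexHull_mono (Set.image_subset_range _ _) h, fun y hy => ?_⟩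
    refine (zlem p l i0 h0 y hy).1.trans ?_
    refine convexHull_min (t := {x | l (p i0) ≤ l x}) ?_ ?_ h
    · rintro _ ⟨j, hj, rfl⟩
      exact hj i0
    · exact convex_halfSpace_ge l.toLinearMap.isLinear _

end

theorem vs_hull (s : Set E3) : vectorSpan ℝ (convexHull ℝ s) = vectorSpan ℝ s := by
  rw [← direction_affineSpan, affineSpan_convexHull, direction_affineSpan]

theorem vs_top (s : Set E3) (a b c d : E3) (ha : a ∈ s) (hb : b ∈ s) (hc : c ∈ s) (hd : d ∈ s)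
    (h : d3 (b - a) (c - a) (d - a) ≠ 0) : vectorSpan ℝ s = ⊤ := by
  rw [eq_top_iff]
  intro x _
  rw [cramer _ _ _ x h]
  exact Submodule.add_mem _ (Submodule.add_mem _
    (Submodule.smul_mem _ _ (vsub_mem_vectorSpan ℝ hb ha))
    (Submodule.smul_mem _ _ (vsub_mem_vectorSpan ℝ hc ha)))
    (Submodule.smul_mem _ _ (vsub_mem_vectorSpan ℝ hd ha))

theorem ext_map (K : Set E3) (φ : E3 ≃ᵢ E3) (h : φ '' K = K) (x : E3)
    (hx : x ∈ K.extremePoints ℝ) : φ x ∈ K.extremePoints ℝ := by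
  rw [mem_extremePoints_iff_left] at hx ⊢
  refine ⟨h ▸ ⟨x, hx.1, rfl⟩, ?_⟩
  intro x1 h1 x2 h2 hs
  rw [← h] at h1 h2
  obtain ⟨y1, g1, rfl⟩ := h1
  obtain ⟨y2, g2, rfl⟩ := h2
  have := image_openSegment ℝ φ.toRealAffineIsometryEquiv.toAffineEquiv.toAffineMap y1 y2
  change φ '' _ = openSegment ℝ (φ y1) (φ y2) at this
  rw [← this] at hs
  obtain ⟨z, hz, e⟩ := hs
  rw [φ.injective e] at hz
  rw [hx.2 y1 g1 y2 g2 hz]

end Pool.Agent.H.MP_41ddaf_co
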