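import Pool.Agent.H.MP_41ddaf_co.Geo

set_option autoImplicit false

namespace Pool.Agent.H.MP_41ddaf_co

section
variable (p : Fin 9 → E3) (hp : ∀ u k, |p u k - X0 u k| ≤ 10)
include hp

theorem near (u v : Fin 9) (k : Fin 3) : |(p u - p v) k - ((X0 u k : ℝ) - X0 v k)| ≤ 20 := by
  have a := abs_le.1 (hp u k)
  have b := abs_le.1 (hp v k)
  rw [PiLp.sub_apply, abs_le]
  constructor <;> linarith [a.1, a.2, b.1, b.2]

theorem d_near (i j k m : Fin 9) :
    |d3 (p j - p i) (p k - p i) (p m - p i) - dz i j k m| ≤ 15000000000000 := by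
  have R : ∀ (u v : Fin 9) (k : Fin 3), |(X0 u k : ℝ) - X0 v k| ≤ 200000 := fun u v k => by
    exact_mod_cast hR u v k
  have t := fun a b c : Fin 3 => abs_le.1 (tri _ _ _ _ _ _ (near p hp j i a) (near p hp k i b)
    (near p hp m i c) (R j i a) (R k i b) (R m i c))
  have t1 := t 0 1 2
  have t2 := t 0 2 1
  have t3 := t 1 0 2
  have t4 := t 1 2 0
  have t5 := t 2 0 1
  have t6 := t 2 1 0
  unfold d3 dz
  push_cast
  rw [abs_le]
  constructor <;> linarith [t1.1, t1.2, t2.1, t2.2, t3.1, t3.2, t4.1, t4.2, t5.1, t5.2, t6.1, t6.2]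

theorem s_near (u v : Fin 9) : |sq3 (p u - p v) - sz u v| ≤ 25000000 := by
  have R : ∀ (k : Fin 3), |(X0 u k : ℝ) - X0 v k| ≤ 200000 := fun k => by
    exact_mod_cast hR u v k
  have t : ∀ k : Fin 3, |(p u - p v) k ^ 2 - ((X0 u k : ℝ) - X0 v k) ^ 2| ≤ 8000400 := by
    intro k
    have a := near p hp u v k
    have b := R k
    generalize (p u - p v) k = x at *
    generalize (X0 u k : ℝ) - X0 v k = y at *
    have e : x ^ 2 - y ^ 2 = (x - y) * ((x - y) + 2 * y) := by ring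
    have c : |(x - y) + 2 * y| ≤ 400020 := by
      rw [abs_le] at *
      constructor <;> linarith [a.1, a.2, b.1, b.2]
    rw [e, abs_mul]
    calc _ ≤ 20 * 400020 := mul_le_mul a c (abs_nonneg _) (by norm_num)
      _ = _ := by norm_num
  have t0 := abs_le.1 (t 0)
  have t1 := abs_le.1 (t 1)
  have t2 := abs_le.1 (t 2)
  unfold sq3 sz
  push_cast
  rw [abs_le]
  constructor <;> linarith [t0.1, t0.2, t1.1, t1.2, t2.1, t2.2]

theorem d0 : d3 (p 1 - p 0) (p 2 - p 0) (p 3 - p 0) ≠ 0 := by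
  have a := abs_le.1 (d_near p hp 0 1 2 3)
  have b : (dz 0 1 2 3 : ℝ) < -15000000000000 := by exact_mod_cast d0123
  linarith [a.2]

theorem good_zero (l : E3 →L[ℝ] ℝ) (i j k : Fin 9) (hg : good i j k) (hi : i ∈ TS p l)
    (hj : j ∈ TS p l) (hk : k ∈ TS p l) (x : E3) : l x = 0 := by
  obtain ⟨g1, g2⟩ := good_ok i j k hg
  generalize Fin.ofNat 9 (ent i j k / 16 % 16) = m at g1
  generalize Fin.ofNat 9 (ent i j k % 16) = m' at g2
  have a := abs_le.1 (d_near p hp i j k m)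
  have b := abs_le.1 (d_near p hp i j k m')
  have g1' : (15000000000000 : ℝ) < dz i j k m := by exact_mod_cast g1
  have g2' : (dz i j k m' : ℝ) < -15000000000000 := by exact_mod_cast g2
  refine l_zero l (p j - p i) (p k - p i) (p m - p i) (p m' - p i) ?_ ?_ ?_ ?_
    (by linarith [a.1]) (by linarith [b.2]) x
  · rw [map_sub]
    linarith [hi j, hj i]
  · rw [map_sub]
    linarith [hi k, hk i]
  · rw [map_sub]
    linarith [hi m]
  · rw [map_sub]
    linarith [hi m']

theorem facet (l : E3 →L[ℝ] ℝ) (F : Set E3)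
    (hF : F = {x | x ∈ convexHull ℝ (Set.range p) ∧
      ∀ y ∈ convexHull ℝ (Set.range p), l y ≤ l x})
    (h2 : Module.finrank ℝ (vectorSpan ℝ F) = 2) :
    ∃ f : Fin 14, F = convexHull ℝ {p (f1 f), p (f2 f), p (f3 f)} := by
  obtain ⟨i, hi⟩ : ∃ i, i ∈ TS p l := Finite.exists_max fun i => l (p i)
  rw [face_eq p l i hi] at hF
  rw [hF, vs_hull] at h2
  have hl : ¬ ∀ x, l x = 0 := by
    intro h
    have a : ∀ j, p j ∈ p '' TS p l := fun j => ⟨j, fun k => by rw [h, h], rfl⟩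
    rw [vs_top _ _ _ _ _ (a 0) (a 1) (a 2) (a 3) (d0 p hp)] at h2
    simp at h2
  have hcol : ∀ j, ¬ TS p l ⊆ {i, j} := by
    intro j h
    have : Collinear ℝ (p '' TS p l) := by
      refine Collinear.subset ?_ (collinear_pair ℝ (p i) (p j))
      rintro _ ⟨k, hk, rfl⟩
      rcases h hk with rfl | rfl <;> simp
    have := this.finrank_le_one
    omega
  obtain ⟨j, hj, hji⟩ := Set.not_subset.1 (hcol i)
  obtain ⟨k, hk, hki⟩ := Set.not_subset.1 (hcol j)
  simp only [Set.mem_insert_iff, Set.mem_singleton_iff, not_or] at hji hki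
  rcases comb i j k (Ne.symm hji.1) (Ne.symm hki.1) (Ne.symm hki.2) with hg | ⟨f, e1, e2⟩
  · exact absurd (good_zero p hp l i j k hg hi hj hk) hl
  refine ⟨f, ?_⟩
  have : TS p l = {f1 f, f2 f, f3 f} := by
    ext m
    simp only [Set.mem_insert_iff, Set.mem_singleton_iff]
    rw [← e1]
    constructor
    · intro hm
      rcases e2 m with h | h | h | h | h | h
      · exact Or.inl h
      · exact Or.inr (Or.inl h)
      · exact Or.inr (Or.inr h)
      · exact absurd (good_zero p hp l i j m h hi hj hm) hl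
      · exact absurd (good_zero p hp l i k m h hi hk hm) hl
      · exact absurd (good_zero p hp l j k m h hj hk hm) hl
    · rintro (rfl | rfl | rfl) <;> assumption
  rw [hF, this, Set.image_insert_eq, Set.image_insert_eq, Set.image_singleton]

theorem extreme (i : Fin 4) :
    p (Fin.castLE (by decide) i) ∈ (convexHull ℝ (Set.range p)).extremePoints ℝ := by
  let l : E3 →L[ℝ] ℝ := (nv i 0 : ℝ) • EuclideanSpace.proj 0 + (nv i 1 : ℝ) • EuclideanSpace.proj 1
    + (nv i 2 : ℝ) • EuclideanSpace.proj 2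
  have hl : ∀ x, l x = nv i 0 * x 0 + nv i 1 * x 1 + nv i 2 * x 2 := fun x => by simp [l]
  have hlt : ∀ j, j ≠ Fin.castLE (by decide) i → l (p j) < l (p (Fin.castLE (by decide) i)) := by
    intro j hj
    have a := expo i j hj
    generalize Fin.castLE (by decide : 4 ≤ 9) i = u at *
    have a' : (600 : ℝ) < nv i 0 * ((X0 u 0 : ℝ) - X0 j 0) + nv i 1 * ((X0 u 1 : ℝ) - X0 j 1) +
        nv i 2 * ((X0 u 2 : ℝ) - X0 j 2) := by exact_mod_cast a
    have t : ∀ k : Fin 3, |(nv i k : ℝ) * ((p u - p j) k - ((X0 u k : ℝ) - X0 j k))| ≤ 200 := by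
      intro k
      have b : |(nv i k : ℝ)| ≤ 10 := by exact_mod_cast nv_le i k
      rw [abs_mul]
      calc _ ≤ 10 * 20 := mul_le_mul b (near p hp u j k) (abs_nonneg _) (by norm_num)
        _ = _ := by norm_num
    have t0 := abs_le.1 (t 0)
    have t1 := abs_le.1 (t 1)
    have t2 := abs_le.1 (t 2)
    simp only [PiLp.sub_apply] at t0 t1 t2
    rw [hl, hl]
    linarith [t0.1, t1.1, t2.1]
  generalize Fin.castLE (by decide : 4 ≤ 9) i = u at *
  have hu : u ∈ TS p l := fun j => by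
    by_cases h : j = u
    · rw [h]
    · exact (hlt j h).le
  have hT : TS p l = {u} := by
    ext j
    refine ⟨fun h => ?_, fun h => h ▸ hu⟩
    by_contra hn
    exact absurd (h u) (not_le.2 (hlt j hn))
  refine exposedPoints_subset_extremePoints ⟨subset_convexHull ℝ _ ⟨u, rfl⟩, l, fun y hy => ?_⟩
  have z := zlem p l u hu y hy
  refine ⟨z.1, fun h => ?_⟩
  have := z.2 (le_antisymm z.1 h)
  rw [hT] at this
  simpa using this

theorem nosym (φ : E3 ≃ᵢ E3)
    (h : φ '' convexHull ℝ (Set.range p) = convexHull ℝ (Set.range p)) :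
    φ = IsometryEquiv.refl E3 := by
  have e : ∀ i : Fin 4, ∃ a, p a = φ (p (Fin.castLE (by decide) i)) := fun i =>
    Set.mem_range.1 (extremePoints_convexHull_subset (ext_map _ φ h _ (extreme p hp i)))
  obtain ⟨a, ha⟩ := e 0
  obtain ⟨b, hb⟩ := e 1
  obtain ⟨c, hc⟩ := e 2
  obtain ⟨d, hd⟩ := e 3
  change p a = φ (p 0) at ha
  change p b = φ (p 1) at hb
  change p c = φ (p 2) at hc
  change p d = φ (p 3) at hd
  have key : ∀ x y u v : Fin 9, p x = φ (p u) → p y = φ (p v) → |sz x y - sz u v| ≤ 50000000 := by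
    intro x y u v hx hy
    have s1 := abs_le.1 (s_near p hp x y)
    have s2 := abs_le.1 (s_near p hp u v)
    have s3 : sq3 (p x - p y) = sq3 (p u - p v) := by
      rw [← norm_sq3, ← norm_sq3, ← dist_eq_norm, ← dist_eq_norm, hx, hy, φ.dist_eq]
    have : |(sz x y : ℝ) - sz u v| ≤ 50000000 := by
      rw [abs_le]
      constructor <;> linarith [s1.1, s1.2, s2.1, s2.2]
    exact_mod_cast this
  obtain ⟨rfl, rfl, rfl, rfl⟩ := rigid a b (key _ _ _ _ ha hb) c (key _ _ _ _ ha hc)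
    (key _ _ _ _ hb hc) d (key _ _ _ _ ha hd) (key _ _ _ _ hb hd) (key _ _ _ _ hc hd)
  have sp : affineSpan ℝ ({p 0, p 1, p 2, p 3} : Set E3) = ⊤ := by
    rw [AffineSubspace.affineSpan_eq_top_iff_vectorSpan_eq_top_of_nonempty ℝ E3 E3 (by simp)]
    exact vs_top _ _ _ _ _ (by simp) (by simp) (by simp) (by simp) (d0 p hp)
  have := AffineMap.ext_on (f := φ.toRealAffineIsometryEquiv.toAffineEquiv.toAffineMap)
    (g := AffineMap.id ℝ E3) sp (by
      rintro x (rfl | rfl | rfl | rfl)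
      · exact ha.symm
      · exact hb.symm
      · exact hc.symm
      · exact hd.symm)
  ext1 x
  exact DFunLike.congr_fun this x

theorem inter : (interior (convexHull ℝ (Set.range p))).Nonempty := by
  rw [interior_convexHull_nonempty_iff_affineSpan_eq_top,
    AffineSubspace.affineSpan_eq_top_iff_vectorSpan_eq_top_of_nonempty ℝ E3 E3 (Set.range_nonempty p)]
  exact vs_top _ _ _ _ _ ⟨0, rfl⟩ ⟨1, rfl⟩ ⟨2, rfl⟩ ⟨3, rfl⟩ (d0 p hp)

end

theorem lens (p : Fin 9 → E3) (he : ∀ e, sq3 (p (eu e) - p (ev e)) = LL e) (f : Fin 14) :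
    sq3 (p (f2 f) - p (f1 f)) = LA ∧ sq3 (p (f3 f) - p (f2 f)) = LB ∧
      sq3 (p (f3 f) - p (f1 f)) = LC := by
  have k : ∀ (u v : Fin 9) (L : ℤ),
      (∃ e, ((eu e = u ∧ ev e = v) ∨ (eu e = v ∧ ev e = u)) ∧ LL e = L) → sq3 (p v - p u) = L := by
    rintro u v L ⟨e, ⟨rfl, rfl⟩ | ⟨rfl, rfl⟩, rfl⟩
    · rw [← he e]
      simp only [sq3, PiLp.sub_apply]
      ring
    · exact he e
  exact ⟨k _ _ _ (face_len f).1, k _ _ _ (face_len f).2.1, k _ _ _ (face_len f).2.2⟩

theorem exists_p : ∃ p : Fin 9 → E3, (∀ u k, |p u k - X0 u k| ≤ 10) ∧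
    ∀ e, sq3 (p (eu e) - p (ev e)) = LL e := by
  obtain ⟨P, h1, h2⟩ := exists_P
  refine ⟨fun u => WithLp.toLp 2 (P u), h1, fun e => ?_⟩
  rw [← h2 e, Fin.sum_univ_three]
  simp [sq3]

end Pool.Agent.H.MP_41ddaf_co
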